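import Pool.Agent.helper53.EXT.SpecG

set_option autoImplicit false

open Finset

namespace Pool.Agent.EXT

open Pool.Agent.EXC

theorem G5Z_Y {F : Type} [Field F] (s1 s2 : F) :
    Y4 2 3 s1 s2 = !![1, s2, 0, 0; 0, 1, 0, 0; 0, 0, 1, s1; 0, 0, 0, 1] := by
  unfold Y4
  ext i j
  fin_cases i <;> fin_cases j <;>
    simp [Matrix.mul_apply, Fin.sum_univ_four, Matrix.single_apply, Matrix.one_apply]

theorem G5Z_inv {F : Type} [Field F] (s1 s2 : F) (h1 : s1 ≠ 0) (h2 : s2 ≠ 0) :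
    (!![0, -s2, 0, -s1; 1 / s2, 0, 0, 0; 0, 0, 0, -s1; -(1 / s1), 0, 1 / s1, 0] : Matrix (Fin 4) (Fin 4) F) *
      !![0, s2, 0, 0; -(1 / s2), 0, 1 / s2, 0; 0, s2, 0, s1; 0, 0, -(1 / s1), 0] = 1 := by
  ext i j
  fin_cases i <;> fin_cases j <;>
    simp [Matrix.mul_apply, Fin.sum_univ_four, Matrix.one_apply, h1, h2]

theorem G5Z_det {F : Type} [Field F] (s1 s2 : F) (h1 : s1 ≠ 0) (h2 : s2 ≠ 0) :
    (!![0, -s2, 0, -s1; 1 / s2, 0, 0, 0; 0, 0, 0, -s1; -(1 / s1), 0, 1 / s1, 0] : Matrix (Fin 4) (Fin 4) F).det = 1 := by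
  simp [Matrix.det_succ_row_zero, Fin.sum_univ_succ, Fin.succAbove, h1, h2]

theorem G5Z_Z {F : Type} [Field F] (s1 s2 : F) (h1 : s1 ≠ 0) (h2 : s2 ≠ 0) :
    (!![1, s2, 0, 0; 0, 1, 0, 0; 0, 0, 1, s1; 0, 0, 0, 1] : Matrix (Fin 4) (Fin 4) F) *
      (!![0, -s2, 0, -s1; 1 / s2, 0, 0, 0; 0, 0, 0, -s1; -(1 / s1), 0, 1 / s1, 0] *
        !![1, s2, 0, 0; 0, 1, 0, 0; 0, 0, 1, s1; 0, 0, 0, 1] *
        !![0, s2, 0, 0; -(1 / s2), 0, 1 / s2, 0; 0, s2, 0, s1; 0, 0, -(1 / s1), 0]) =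
      !![0, s2, 1, 0; -(1 / s2), 1, 1 / s2, 0; 1, 0, -1, s1; 1 / s1, 0, -(2 / s1), 1] := by
  ext i j
  fin_cases i <;> fin_cases j <;>
    simp [Matrix.mul_apply, Fin.sum_univ_four] <;> field_simp <;> ring

theorem G5Z_Z2 {F : Type} [Field F] (s1 s2 : F) (h1 : s1 ≠ 0) (h2 : s2 ≠ 0) :
    (!![0, s2, 1, 0; -(1 / s2), 1, 1 / s2, 0; 1, 0, -1, s1; 1 / s1, 0, -(2 / s1), 1] : Matrix (Fin 4) (Fin 4) F) *
      !![0, s2, 1, 0; -(1 / s2), 1, 1 / s2, 0; 1, 0, -1, s1; 1 / s1, 0, -(2 / s1), 1] =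
      !![0, s2, 0, s1; 0, 0, -(1 / s2), s1 / s2; 0, s2, 0, 0; -(1 / s1), s2 / s1, 1 / s1, -1] := by
  ext i j
  fin_cases i <;> fin_cases j <;>
    simp [Matrix.mul_apply, Fin.sum_univ_four] <;> field_simp <;> ring

theorem G5Z : G5Z_stmt := by
  intro F _ s1 s2 h1 h2
  set g : Matrix.SpecialLinearGroup (Fin 4) F :=
    ⟨!![0, -s2, 0, -s1; 1 / s2, 0, 0, 0; 0, 0, 0, -s1; -(1 / s1), 0, 1 / s1, 0], G5Z_det s1 s2 h1 h2⟩ with hg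
  have hinv : ((g⁻¹ : Matrix.SpecialLinearGroup (Fin 4) F) : Matrix (Fin 4) (Fin 4) F) =
      !![0, s2, 0, 0; -(1 / s2), 0, 1 / s2, 0; 0, s2, 0, s1; 0, 0, -(1 / s1), 0] := by
    have h3 : (g : Matrix (Fin 4) (Fin 4) F) * ((g⁻¹ : Matrix.SpecialLinearGroup (Fin 4) F) : Matrix (Fin 4) (Fin 4) F) = 1 := by
      rw [← Matrix.SpecialLinearGroup.coe_mul, mul_inv_cancel, Matrix.SpecialLinearGroup.coe_one]
    have h3' : ((g⁻¹ : Matrix.SpecialLinearGroup (Fin 4) F) : Matrix (Fin 4) (Fin 4) F) * (g : Matrix (Fin 4) (Fin 4) F) = 1 := by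
      rw [← Matrix.SpecialLinearGroup.coe_mul, inv_mul_cancel, Matrix.SpecialLinearGroup.coe_one]
    have h4 := G5Z_inv s1 s2 h1 h2
    calc ((g⁻¹ : Matrix.SpecialLinearGroup (Fin 4) F) : Matrix (Fin 4) (Fin 4) F)
        = ((g⁻¹ : Matrix.SpecialLinearGroup (Fin 4) F) : Matrix (Fin 4) (Fin 4) F) * ((g : Matrix (Fin 4) (Fin 4) F) *
          !![0, s2, 0, 0; -(1 / s2), 0, 1 / s2, 0; 0, s2, 0, s1; 0, 0, -(1 / s1), 0]) := by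
          rw [show (g : Matrix (Fin 4) (Fin 4) F) * _ = 1 from h4, mul_one]
      _ = _ := by rw [← mul_assoc, h3', one_mul]
  refine ⟨1, g, -1, Or.inr rfl, ?_⟩
  intro Z hZ
  rw [inv_one, Matrix.SpecialLinearGroup.coe_one, one_mul, mul_one, hinv, G5Z_Y] at hZ
  have hgc : (g : Matrix (Fin 4) (Fin 4) F) = !![0, -s2, 0, -s1; 1 / s2, 0, 0, 0; 0, 0, 0, -s1; -(1 / s1), 0, 1 / s1, 0] := rfl
  rw [hgc, G5Z_Z s1 s2 h1 h2] at hZ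
  have hZ2 : Z ^ 2 = !![0, s2, 0, s1; 0, 0, -(1 / s2), s1 / s2; 0, s2, 0, 0; -(1 / s1), s2 / s1, 1 / s1, -1] := by
    rw [pow_two, hZ, G5Z_Z2 s1 s2 h1 h2]
  have hZ3 : Z ^ 3 = Z ^ 2 * Z := by rw [pow_succ]
  have hZ4 : Z ^ 4 = Z ^ 2 * Z ^ 2 := by rw [← pow_add]
  rw [hZ4, hZ3, hZ2, hZ]
  ext i j
  fin_cases i <;> fin_cases j <;>
    simp [Matrix.mul_apply, Fin.sum_univ_four, Matrix.one_apply] <;> field_simp <;> ring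

end Pool.Agent.EXT
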